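import Pool.Agent.H46.CH.AT

/-!
# Row EA: accepted structures have run trees
-/

set_option autoImplicit false

namespace Pool.Agent.H40.CH

open Classical Pool.Agent.H8.VR Pool.Agent.H69.VR Pool.Agent.H46.CH

theorem sum_num {A ι : Type} [Fintype A] [Fintype ι] (f : A → ι) (P : A → Prop) (hP : ∀ a, P a) :
    ∑ σ, Pool.Agent.H8.VR.num (fun a => P a ∧ f a = σ) = Fintype.card A := by
  have h := Finset.card_eq_sum_card_fiberwise (f := f) (s := (Finset.univ : Finset A))
    (t := (Finset.univ : Finset ι)) (fun a _ => Finset.mem_univ _)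
  rw [← Finset.card_univ, h]
  refine Finset.sum_congr rfl fun σ _ => ?_
  unfold Pool.Agent.H8.VR.num
  refine congrArg Finset.card ?_
  ext a
  simp [hP a]

theorem pf_EA (hXT : T_XT) : Pool.Agent.H46.CH.T_EA := by
  intro N Q L T O C _ _ _ _ W s₀ Ac hAc n hn
  obtain ⟨A, iA, lam, th, col, hS, hG, hc, ha⟩ := hn
  obtain ⟨R, hR, hD⟩ := hXT N Q L T O C W A lam th col hS
    (fun a z => congrFun (hAc _ (ha a)) z) s₀ Set.univ col hG (fun _ _ => rfl) 0
    (fun φ => ⟨∅, by simp, by simp⟩)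
  refine ⟨R, hR, by rw [hD], fun φ => by rw [hD]; rfl, ?_, ?_⟩
  · rw [hD, ← hc]
    exact sum_num (fun a => (col a, stt W.K lam th Set.univ a)) (fun a => a ∈ (Set.univ : Set A))
      (fun a => Set.mem_univ a)
  · intro σ hσ
    rw [hD] at hσ
    have h1 : ∃ a, a ∈ (Set.univ : Set A) ∧ (col a, stt W.K lam th Set.univ a) = σ := by
      have h2 := Finset.card_ne_zero.1 hσ
      obtain ⟨a, ha'⟩ := h2
      simp only [Finset.mem_filter, Finset.mem_univ, true_and] at ha'
      exact ⟨a, ha'⟩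
    obtain ⟨a, -, rfl⟩ := h1
    exact ha a

end Pool.Agent.H40.CH
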