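import Pool.Agent.H46.CH.AT

/-!
# Row J4: extra elements which are not inserted
-/

set_option autoImplicit false

namespace Pool.Agent.H40.CH

open Classical Pool.Agent.H8.VR Pool.Agent.H69.VR Pool.Agent.H46.CH

theorem numE {A : Type} {i₁ i₂ : Fintype A} {P P' : A → Prop} (h : ∀ a, P a ↔ P' a) :
    @Pool.Agent.H8.VR.num A i₁ P = @Pool.Agent.H8.VR.num A i₂ P' := by
  have h1 : P = P' := funext fun a => propext (h a)
  have h2 : i₁ = i₂ := Subsingleton.elim _ _
  rw [h1, h2]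

theorem num_sub {A : Type} [Fintype A] (R : A → Prop) [Fintype {a // R a}] (P : A → Prop)
    (h : ∀ a, P a → R a) :
    Pool.Agent.H8.VR.num P = Pool.Agent.H8.VR.num (fun a : {a // R a} => P a.1) := by
  unfold Pool.Agent.H8.VR.num
  have e : Finset.univ.filter P =
      (Finset.univ.filter (fun a : {a // R a} => P a.1)).map (Function.Embedding.subtype R) := by
    ext a
    simp only [Finset.mem_filter, Finset.mem_univ, true_and, Finset.mem_map,
      Function.Embedding.subtype_apply]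
    constructor
    · intro ha
      exact ⟨⟨a, h a ha⟩, ha, rfl⟩
    · rintro ⟨b, hb, rfl⟩
      exact hb
  rw [e, Finset.card_map]

theorem num_split {A : Type} [Fintype A] (P R : A → Prop) :
    Pool.Agent.H8.VR.num P =
      Pool.Agent.H8.VR.num (fun a => P a ∧ R a) + Pool.Agent.H8.VR.num (fun a => P a ∧ ¬ R a) := by
  unfold Pool.Agent.H8.VR.num
  have h := Finset.card_filter_add_card_filter_not (s := Finset.univ.filter P) R
  rw [Finset.filter_filter, Finset.filter_filter] at h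
  rw [← h]
  congr

theorem pf_J4 (hSS : T_SS) : Pool.Agent.H46.CH.T_J4 := by
  intro N Q L T O C _ _ _ _ _ W o a b a' b' e V hJ X Y _ _ t u ht hu
  obtain ⟨E, hE1, hE2⟩ := hSS Y (Ix Q L T C) u b V hu
  have hb : ∀ σ, b σ = Pool.Agent.H8.VR.num (fun y : {y // y ∉ E} => u y.1 = σ) := by
    intro σ
    rw [← hE1 σ, num_sub (fun y => y ∉ E) (fun y => y ∉ E ∧ u y = σ) (fun y hy => hy.1)]
    refine numE fun y => ?_
    exact ⟨fun h => h.2, fun h => ⟨y.2, h⟩⟩
  obtain ⟨h', I', t', u'', c1, c2, c3, c4, c5, c6, c7, c8⟩ :=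
    hJ X {y // y ∉ E} t (fun y => u y.1) ht hb
  have hh : ∀ x (y : {y // y ∉ E}), (fun (x : X) (y : Y) =>
      if hy : y ∉ E then h' x ⟨y, hy⟩ else Classical.arbitrary T) x y.1 = h' x y := by
    intro x y
    exact dif_pos y.2
  have hu' : ∀ (y : {y // y ∉ E}), (fun (y : Y) =>
      if hy : y ∉ E then u'' ⟨y, hy⟩ else u y) y.1 = u'' y := by
    intro y
    exact dif_pos y.2
  have hI : ∀ (y : {y // y ∉ E}), y.1 ∈ (Subtype.val '' I' : Set Y) ↔ y ∈ I' := by
    intro y
    constructor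
    · rintro ⟨y', hy', h⟩
      rwa [← Subtype.ext h]
    · intro h
      exact ⟨y, h, rfl⟩
  have hIE : ∀ y, y ∈ (Subtype.val '' I' : Set Y) → y ∉ E := by
    rintro y ⟨y', -, rfl⟩
    exact y'.2
  refine ⟨fun x y => if hy : y ∉ E then h' x ⟨y, hy⟩ else Classical.arbitrary T,
    Subtype.val '' I', t', fun y => if hy : y ∉ E then u'' ⟨y, hy⟩ else u y,
    ?_, c2, ?_, ?_, ?_, c6, ?_, ?_⟩
  · rintro x y ⟨y', hy', rfl⟩
    have h1 := c1 x y' hy'
    rw [← hh x y'] at h1
    exact h1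
  · intro y
    by_cases hy : y ∉ E
    · have h1 := c3 ⟨y, hy⟩
      rw [← hu' ⟨y, hy⟩] at h1
      exact h1
    · simp only [dif_neg hy]
      exact ⟨trivial, trivial⟩
  · intro x z
    have h1 := c4 x z
    rw [num_sub (fun y => y ∉ E) _ (fun y hy => hIE y hy.1)]
    rw [numE (P' := fun y : {y // y ∉ E} => y ∈ I' ∧ (u y.1).2.1 = z.1 ∧ h' x y = z.2)]
    · exact h1
    · intro y
      rw [hI y, hh x y]
  · rintro y ⟨y', hy', rfl⟩ z
    have h1 := c5 y' hy' z
    have h2 := hu' y'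
    simp only at h2
    simp only [h2]
    have h3 : ∀ x, (if hy : y'.1 ∉ E then h' x ⟨y'.1, hy⟩ else Classical.arbitrary T) = h' x y' :=
      fun x => hh x y'
    simp only [h3]
    exact h1
  · intro σ
    rw [Pi.add_apply, c7 σ, ← hE2 σ,
      num_split (fun y => y ∉ Subtype.val '' I' ∧ u y = σ) (fun y => y ∉ E),
      num_sub (fun y => y ∉ E) (fun y => (y ∉ Subtype.val '' I' ∧ u y = σ) ∧ y ∉ E)
        (fun y hy => hy.2)]
    refine congrArg₂ _ (numE fun y => ?_) (numE fun y => ?_)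
    · rw [hI y]
      exact ⟨fun h => ⟨h, y.2⟩, fun h => h.1⟩
    · constructor
      · rintro ⟨h1, h2⟩
        exact ⟨⟨fun h3 => hIE y h3 h1, h2⟩, fun h3 => h3 h1⟩
      · rintro ⟨⟨-, h2⟩, h3⟩
        exact ⟨not_not.1 h3, h2⟩
  · intro σ
    rw [c8 σ, num_sub (fun y => y ∉ E) _ (fun y hy => hIE y hy.1)]
    refine numE fun y => ?_
    rw [hI y, hu' y]

end Pool.Agent.H40.CH
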